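import Pool.Agent.H505R3.Asym8

set_option autoImplicit false

/-!
# Rough values of `n ^ 2 + 1` with an even number of prime factors in any given set

Method: the identity `(N ^ 2 + 1) ((2 N ^ 2) ^ 2 + 1) = (2 N ^ 3 + N) ^ 2 + 1` and a lower bound sieve
for the three polynomials `N ^ 2 + 1`, `2 N ^ 2 - 2 N + 1`, `2 N ^ 2 + 2 N + 1`, `8 ∣ N`
(`Pool.Agent.H505R3.main8`, written by helper505 of an earlier round and never handed in).
-/

namespace Pool.Agent.Results.MP_7169d5_nt.EvenRoughValues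

/-- There is `X₀` such that for every completely additive function `f` from the positive integers to
an abelian group `H`, every element `h ≠ 0` of `H` and every `X ≥ X₀` at least
`X ^ (1 / 3) / (log X) ^ 139` integers `1 ≤ n ≤ X`, all divisible by `8`, are such that all prime
factors of `n ^ 2 + 1` are larger than `X ^ (1 / 8000)` and `f (n ^ 2 + 1) ≠ h`.

With `H = ℤ / 2`, `h = 1` and `f` the number of prime factors in a set `S` of primes: for every set
`S` of primes the number of prime factors of `n ^ 2 + 1` in `S` is even for that many `n`. In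
particular (`S` the set of all primes) `n ^ 2 + 1` is a product of an even number of primes, all
larger than `X ^ (1 / 8000)`, for that many `n ≤ X`. -/
theorem result : ∃ X₀ : ℕ, ∀ (H : Type) [AddCommGroup H] (f : ℕ → H),
    (∀ a b : ℕ, a ≠ 0 → b ≠ 0 → f (a * b) = f a + f b) → ∀ h : H, h ≠ 0 →
    ∀ X : ℕ, X₀ ≤ X →
      (X : ℝ) ^ ((1 : ℝ) / 3) / Real.log X ^ 139 ≤
        (({n : ℕ | 1 ≤ n ∧ n ≤ X ∧ 8 ∣ n ∧
          (∀ p : ℕ, p.Prime → p ∣ n ^ 2 + 1 → (X : ℝ) ^ ((1 : ℝ) / 8000) < p) ∧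
          f (n ^ 2 + 1) ≠ h} : Set ℕ).ncard : ℝ) := by
  obtain ⟨X₀, hX₀⟩ := Pool.Agent.H505R3.main8
  refine ⟨X₀, fun H _ f hf h hh X hX => ?_⟩
  refine (hX₀ (fun m => f m ≠ h) ?_ X hX).trans ?_
  · intro a b ha hb h1 h2 h3
    simp only [ne_eq, not_not] at h1 h2 h3
    rw [hf a b ha hb, h1, h2] at h3
    exact hh (by simpa using h3)
  · have hsub : ({n : ℕ | n ≤ X ∧ 0 < n ∧ 8 ∣ n ∧
          (∀ p : ℕ, p.Prime → p ∣ n ^ 2 + 1 → (X : ℝ) ^ ((1 : ℝ) / 8000) < p) ∧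
          (fun m => f m ≠ h) (n ^ 2 + 1)} : Set ℕ) ⊆ {n : ℕ | 1 ≤ n ∧ n ≤ X ∧ 8 ∣ n ∧
          (∀ p : ℕ, p.Prime → p ∣ n ^ 2 + 1 → (X : ℝ) ^ ((1 : ℝ) / 8000) < p) ∧
          f (n ^ 2 + 1) ≠ h} := fun n hn => ⟨hn.2.1, hn.1, hn.2.2.1, hn.2.2.2.1, hn.2.2.2.2⟩
    exact_mod_cast Set.ncard_le_ncard hsub ((Set.finite_Iic X).subset fun _ hn => hn.2.1)

end Pool.Agent.Results.MP_7169d5_nt.EvenRoughValues
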