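import Pool.Agent.H618R2.GR.Walk

set_option autoImplicit false

/-!
# Long intervals without primes `a ^ 2 + 1`, and rectangles without Gaussian primes at all multiples

Method (`Pool/Agent/H618R2/GR`, on top of the covering theorem `Pool/Agent/H474R2/PG/Cover.lean` for several
residue classes modulo each prime; never handed in): a Maier-Pomerance / Erdos-Rankin type covering of the
points `(j x + k) + b i` by residue classes of `x` modulo the primes `p ≤ Y ^ (1 / 10)` with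
`p ∣ (j x + k) ^ 2 + b ^ 2`.
-/

namespace Pool.Agent.Results.MP_7169d5_nt.GaussianRectangles

open Filter

/-- There is `c > 0` such that for all large `Y` and every `M ≥ Y`:

1. some `x` with `M < x ≤ M + Y` has the property that `a ^ 2 + 1` is composite for **all** integers `a` with
   `|a - x| ≤ c log Y log log Y`; in fact it has a prime factor `p ≤ Y ^ (1 / 10)`, `p < a ^ 2 + 1`;
2. for all `J, H, K ≥ 1` with `J H K ≤ c log Y log log Y` some `x` with `M < x ≤ M + Y` has the property that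
   for all `1 ≤ j ≤ J` the rectangles `|a - j x| ≤ H`, `1 ≤ |b| ≤ K` around the multiples `j x` contain no
   Gaussian prime `a + b i`; in fact `a ^ 2 + b ^ 2` has a prime factor `p ≤ Y ^ (1 / 10)`, `p < a ^ 2 + b ^ 2`.

3. For every `B > 0` there is `c' > 0` such that a sequence of Gaussian primes whose real parts change by at
   most `B` in each step, and which satisfies `|Im z| ≤ c' log |Re z| log log |Re z|` at all its points with
   `|Re z| > R` for some `R`, has real parts bounded from above: one cannot walk to infinity near the real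
   axis on the Gaussian primes with bounded steps. -/
theorem result :
    (∃ c : ℝ, 0 < c ∧ ∃ Y₀ : ℝ, ∀ Y : ℝ, Y₀ ≤ Y → ∀ M : ℕ, Y ≤ M →
      (∃ x : ℕ, M < x ∧ (x : ℝ) ≤ M + Y ∧
        ∀ a : ℤ, |(a : ℝ) - x| ≤ c * Real.log Y * Real.log (Real.log Y) →
          (¬ Prime (a ^ 2 + 1) ∧ ∃ p : ℕ, p.Prime ∧ (p : ℝ) ≤ Y ^ (1 / 10 : ℝ) ∧
            (p : ℤ) ∣ a ^ 2 + 1 ∧ (p : ℤ) < a ^ 2 + 1)) ∧
      ∀ J H K : ℕ, 1 ≤ J → 1 ≤ H → 1 ≤ K →
        (J : ℝ) * H * K ≤ c * Real.log Y * Real.log (Real.log Y) →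
        ∃ x : ℕ, M < x ∧ (x : ℝ) ≤ M + Y ∧
          ∀ j : ℕ, 1 ≤ j → j ≤ J → ∀ a b : ℤ, |a - j * x| ≤ H → 1 ≤ |b| → |b| ≤ K →
            (¬ Prime (⟨a, b⟩ : GaussianInt) ∧ ∃ p : ℕ, p.Prime ∧ (p : ℝ) ≤ Y ^ (1 / 10 : ℝ) ∧
              (p : ℤ) ∣ a ^ 2 + b ^ 2 ∧ (p : ℤ) < a ^ 2 + b ^ 2)) ∧
    (∀ B : ℝ, 0 < B → ∃ c' : ℝ, 0 < c' ∧ ∀ R : ℝ, ∀ z : ℕ → GaussianInt,
      (∀ n, Prime (z n)) → (∀ n, |((z (n+1)).re : ℝ) - (z n).re| ≤ B) →
      (∀ n, R < |((z n).re : ℝ)| → |((z n).im : ℝ)| ≤ c' * Real.log |((z n).re:ℝ)| *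
        Real.log (Real.log |((z n).re:ℝ)|)) →
      ∃ S : ℝ, ∀ n, ((z n).re : ℝ) ≤ S) := by
  refine ⟨?_, fun B hB => Pool.Agent.H618R2.GR.walk_up B hB⟩
  obtain ⟨c, hc, Y₀, h⟩ := Pool.Agent.H618R2.GR.rectangles
  refine ⟨c / 2, by positivity, ?_⟩
  have t1 : Tendsto (fun Y : ℝ => Real.log Y) atTop atTop := Real.tendsto_log_atTop
  have t2 : Tendsto (fun Y : ℝ => Real.log (Real.log Y)) atTop atTop := t1.comp t1
  have e2 : ∀ᶠ Y : ℝ in atTop, c * (Real.log Y) ^ 2 ≤ Y := by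
    have h1 : (fun Y : ℝ => (Real.log Y) ^ (2:ℝ)) =o[atTop] (fun Y : ℝ => Y ^ (1 : ℝ)) :=
      isLittleO_log_rpow_rpow_atTop 2 (by norm_num)
    filter_upwards [h1.def (show (0:ℝ) < 1 / c by positivity), eventually_ge_atTop (1:ℝ)]
      with Y hY hY1
    have hlog := Real.log_nonneg hY1
    rw [Real.norm_eq_abs, Real.norm_eq_abs, abs_of_nonneg (Real.rpow_nonneg hlog _),
      Real.rpow_one, abs_of_nonneg (by linarith), Real.rpow_two, div_mul_eq_mul_div, one_mul,
      le_div_iff₀ hc] at hY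
    linarith
  have ev : ∀ᶠ Y : ℝ in atTop, Y₀ ≤ Y ∧ 2 ≤ c * Real.log Y ∧ 1 ≤ Real.log (Real.log Y) ∧
      1 ≤ Real.log Y ∧ 1 ≤ Y ∧ c * (Real.log Y) ^ 2 ≤ Y := by
    filter_upwards [eventually_ge_atTop Y₀, t1.eventually_ge_atTop (2 / c), t2.eventually_ge_atTop 1,
      t1.eventually_ge_atTop 1, eventually_ge_atTop 1, e2] with Y a b d e f g
    refine ⟨a, ?_, d, e, f, g⟩
    rw [div_le_iff₀ hc] at b
    linarith
  rw [eventually_atTop] at ev
  obtain ⟨Y₁, hY₁⟩ := ev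
  refine ⟨Y₁, fun Y hY M hM => ?_⟩
  obtain ⟨hY0, h2, hll, hl1, hY1, hsq⟩ := hY₁ Y hY
  have hlog : 0 < Real.log Y := by linarith
  have hL : 2 ≤ c * Real.log Y * Real.log (Real.log Y) := by
    have : c * Real.log Y ≤ c * Real.log Y * Real.log (Real.log Y) :=
      le_mul_of_one_le_right (by positivity) hll
    linarith
  -- the rectangles
  have rect : ∀ J H K : ℕ, 1 ≤ J → 1 ≤ H → 1 ≤ K →
        (J : ℝ) * H * K ≤ c * Real.log Y * Real.log (Real.log Y) →
        ∃ x : ℕ, M < x ∧ (x : ℝ) ≤ M + Y ∧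
          ∀ j : ℕ, 1 ≤ j → j ≤ J → ∀ a b : ℤ, |a - j * x| ≤ H → 1 ≤ |b| → |b| ≤ K →
            ∃ p : ℕ, p.Prime ∧ (p : ℝ) ≤ Y ^ (1 / 10 : ℝ) ∧
              (p : ℤ) ∣ a ^ 2 + b ^ 2 ∧ (p : ℤ) < a ^ 2 + b ^ 2 := by
    intro J H K hJ hH hK hle
    obtain ⟨x, hx1, hx2, hx⟩ := h Y hY0 M (by exact_mod_cast hM) J H K hJ hH hK hle
    lift x to ℕ using (by have := Int.natCast_nonneg M; omega)
    refine ⟨x, by exact_mod_cast hx1, by exact_mod_cast hx2, ?_⟩
    intro j hj1 hj2 a b ha hb1 hb2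
    have hb3 : ((b.natAbs : ℕ) : ℤ) = |b| := Int.natCast_natAbs b
    obtain ⟨p, hp, hpY, hpd, hlt⟩ := hx j hj1 hj2 (a - j * x) (by exact_mod_cast ha) b.natAbs
      (by omega) (by omega)
    have e1 : ((j : ℤ) * ((x : ℕ) : ℤ) + (a - j * x)) ^ 2 + ((b.natAbs : ℕ) : ℤ) ^ 2
        = a ^ 2 + b ^ 2 := by
      rw [hb3, sq_abs]; ring
    rw [e1] at hpd hlt
    exact ⟨p, hp, hpY, hpd, hlt⟩
  refine ⟨?_, ?_⟩
  · -- primes `a ^ 2 + 1`
    obtain ⟨H, hH⟩ : ∃ H : ℕ, H = ⌊c * Real.log Y * Real.log (Real.log Y)⌋₊ := ⟨_, rfl⟩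
    have hHle : (H : ℝ) ≤ c * Real.log Y * Real.log (Real.log Y) := by
      rw [hH]; exact Nat.floor_le (by linarith)
    have hHge : c * Real.log Y * Real.log (Real.log Y) / 2 ≤ H := by
      have := Nat.lt_floor_add_one (c * Real.log Y * Real.log (Real.log Y))
      rw [← hH] at this
      linarith
    have hH1 : 1 ≤ H := by
      have : (1 : ℝ) ≤ H := by linarith
      exact_mod_cast this
    obtain ⟨x, hx1, hx2, hx⟩ := rect 1 H 1 le_rfl hH1 le_rfl (by push_cast; linarith)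
    refine ⟨x, hx1, hx2, fun a ha => ?_⟩
    have ha2 : |a - ((1 : ℕ) : ℤ) * x| ≤ H := by
      have h3 : |(a : ℝ) - x| ≤ H := by
        refine ha.trans ?_
        have : c / 2 * Real.log Y * Real.log (Real.log Y) =
          c * Real.log Y * Real.log (Real.log Y) / 2 := by ring
        linarith
      have h4 : ((|a - ((1 : ℕ) : ℤ) * x| : ℤ) : ℝ) ≤ ((H : ℤ) : ℝ) := by
        push_cast
        simpa using h3
      exact_mod_cast h4
    obtain ⟨p, hp, hpY, hpd, hlt⟩ := hx 1 le_rfl le_rfl a 1 ha2 (by norm_num) (by norm_num)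
    rw [one_pow] at hpd hlt
    refine ⟨fun hpr => ?_, p, hp, hpY, hpd, hlt⟩
    have h5 : Prime ((p : ℕ) : ℤ) := Nat.prime_iff_prime_int.1 hp
    have h6 : Associated ((p : ℕ) : ℤ) (a ^ 2 + 1) := h5.associated_of_dvd hpr hpd
    have h7 : ((p : ℕ) : ℤ) = a ^ 2 + 1 :=
      Int.eq_of_associated_of_nonneg h6 (by positivity) (by positivity)
    omega
  · intro J H K hJ hH hK hle
    obtain ⟨x, hx1, hx2, hx⟩ := rect J H K hJ hH hK (by
      refine hle.trans ?_
      have h0 : 0 ≤ Real.log Y * Real.log (Real.log Y) := by positivity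
      nlinarith)
    refine ⟨x, hx1, hx2, fun j hj1 hj2 a b ha hb1 hb2 => ?_⟩
    obtain ⟨p, hp, hpY, hpd, hlt⟩ := hx j hj1 hj2 a b ha hb1 hb2
    refine ⟨?_, p, hp, hpY, hpd, hlt⟩
    have hb0 : b ≠ 0 := by
      rintro rfl
      simp at hb1
    by_cases ha0 : a = 0
    · -- `a = 0` cannot happen, since `x` is large
      exfalso
      have h8 : (j : ℤ) * x ≤ H := by
        rw [ha0] at ha
        have : |(0 : ℤ) - j * x| = j * x := by
          rw [zero_sub, abs_neg, abs_of_nonneg (by positivity)]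
        rw [this] at ha
        exact ha
      have h9 : (x : ℝ) ≤ H := by
        have hx' : (x : ℤ) ≤ j * x := by
          have : (1 : ℤ) ≤ j := by exact_mod_cast hj1
          nlinarith [Int.natCast_nonneg x]
        have : (x : ℤ) ≤ H := hx'.trans h8
        exact_mod_cast this
      have h10 : (M : ℝ) < x := by exact_mod_cast hx1
      have h11 : Real.log (Real.log Y) ≤ Real.log Y := (Real.log_le_sub_one_of_pos hlog).trans (by linarith)
      have h12 : c * Real.log Y * Real.log (Real.log Y) ≤ c * (Real.log Y) ^ 2 := by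
        have := mul_le_mul_of_nonneg_left h11 (by positivity : 0 ≤ c * Real.log Y)
        nlinarith
      have h13 : (H : ℝ) ≤ (J : ℝ) * H * K := by
        have : (1 : ℝ) ≤ (J : ℝ) * K := by
          have h14 : 1 ≤ J * K := Nat.mul_pos hJ hK
          exact_mod_cast h14
        have h15 : (0 : ℝ) ≤ H := Nat.cast_nonneg _
        nlinarith
      have h16 : c / 2 * Real.log Y * Real.log (Real.log Y) ≤ c * Real.log Y * Real.log (Real.log Y) := by
        have h0 : 0 ≤ c * (Real.log Y * Real.log (Real.log Y)) := by positivity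
        nlinarith
      linarith
    · exact Pool.Agent.H618R2.GR.A2 a b ha0 hb0 p hp hpd hlt

end Pool.Agent.Results.MP_7169d5_nt.GaussianRectangles
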