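import Pool.Agent.X32.Uni.Blk

/-!
# Whole blocks of values of `a² + 1`: the small factors prescribed by a model, the cofactors almost prime

Let `h_1, ..., h_k` be ARBITRARY integers (for instance all integers of `[-L, L]`; no local condition), let `n₀` be a
natural number, `Q ≥ 1`, `ε > 0`. Then, for all large `X`, every interval `(A, B]` with `B ≤ X`, `B - A ≥ X ^ ε`
contains at least `κ (B - A) V` integers `n` such that, for ALL `l` at once,
`(n + h_l)² + 1 = ((n₀ + h_l)² + 1) w_l`, `w_l ≡ 1` modulo `Q`, `w_l` a product of at most `2 t` primes `> X ^ (1 / t)`.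
Here `V` is the product of `1 - ω(p) / p` over the primes `z < p ≤ X`, `z = Q ∏ ((n₀ + h_l)² + 1)`, where `ω(p)` is the
number of the zeros of `∏ ((x + h_l)² + 1)` modulo `p`; this is the conjectured order of magnitude of the number of
the `n` for which all the cofactors `w_l` are primes. For every `s`, `δ > 0` and every colouring with `r` colours all
but `δ (B - A) V` of these `n` are covered by pairwise disjoint monochromatic progressions of `s` such `n` with
differences `≤ (log X) ^ c`.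

So every block of consecutive values of `a² + 1` is repeated, up to almost prime cofactors, in every short interval;
in particular, in every such interval there are blocks of arbitrary length all of whose values are almost primes up to
bounded factors, and with `n₀ + h_l = 0` the value `(n + h_l)² + 1` itself is almost prime.
-/

set_option autoImplicit false

namespace Pool.Agent.Results.MP_7169d5_nt.PrescribedSmallParts

open Finset

variable {k : ℕ}

/-- `|v| > 1`, and `|v|` is a product of at most `r` primes, all of them larger than `y` -/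
def Almost (r : ℕ) (y : ℝ) (v : ℤ) : Prop :=
  1 < |v| ∧ v.natAbs.primeFactorsList.length ≤ r ∧ ∀ q : ℕ, q.Prime → (q : ℤ) ∣ v → y < q

/-- `ω(p)`: the number of the zeros of `∏ ((x + h_l)² + 1)` modulo `p` -/
def omega (h : Fin k → ℤ) (p : ℕ) : ℕ :=
  ((range p).filter (fun x : ℕ => (p : ℤ) ∣ ∏ l, (((x : ℤ) + h l) ^ 2 + 1))).card

/-- `z = Q ∏ ((n₀ + h_l)² + 1)` -/
def zz (h : Fin k → ℤ) (n₀ Q : ℕ) : ℕ := Q * ∏ l, (((n₀ : ℤ) + h l) ^ 2 + 1).natAbs

/-- the product of `1 - ω(p) / p` over the primes of `(z, X]` -/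
noncomputable def V (h : Fin k → ℤ) (z X : ℕ) : ℝ :=
  ∏ p ∈ (Ioc z X).filter Nat.Prime, (1 - (omega h p : ℝ) / p)

open Classical in
/-- the integers `n` of `(A, B]` described above -/
noncomputable def Good (h : Fin k → ℤ) (n₀ Q t X A B : ℕ) : Finset ℕ :=
  (Ioc A B).filter (fun n : ℕ => ∃ w : Fin k → ℤ, ∀ l,
    ((n : ℤ) + h l) ^ 2 + 1 = (((n₀ : ℤ) + h l) ^ 2 + 1) * w l ∧ w l ≡ 1 [ZMOD (Q : ℤ)] ∧
      Almost (2 * t) ((X : ℝ) ^ (1 / (t : ℝ))) (w l))

/-- the terms `a, a + b, ..., a + (s - 1) b` of the progression `z = (a, b)` -/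
def terms (s : ℕ) (z : ℕ × ℕ) : Finset ℕ := (range s).image (fun i => z.1 + i * z.2)

theorem result (h : Fin k → ℤ) (hk : 0 < k) (n₀ Q : ℕ) (hQ : 1 ≤ Q) (ε : ℝ) (hε : 0 < ε) :
    ∃ t : ℕ, 1 ≤ t ∧ ∃ κ : ℝ, 0 < κ ∧ ∀ (s r : ℕ) (δ : ℝ), 1 ≤ s → 0 < δ → ∃ c X₀ : ℕ, ∀ X : ℕ, X₀ ≤ X →
      κ / Real.log X ^ (2 * k) ≤ V h (zz h n₀ Q) X ∧ ∀ A B : ℕ, B ≤ X → (X : ℝ) ^ ε ≤ (B : ℝ) - A →
        κ * ((B : ℝ) - A) * V h (zz h n₀ Q) X ≤ ((Good h n₀ Q t X A B).card : ℝ) ∧
        ∀ χ : ℕ → Fin r, ∃ P : Finset (ℕ × ℕ),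
          (∀ z ∈ P, 1 ≤ z.2 ∧ (z.2 : ℝ) ≤ Real.log X ^ c ∧
            ∀ l < s, z.1 + l * z.2 ∈ Good h n₀ Q t X A B ∧ χ (z.1 + l * z.2) = χ z.1) ∧
          (P : Set (ℕ × ℕ)).PairwiseDisjoint (terms s) ∧
          (((Good h n₀ Q t X A B \ P.biUnion (terms s)).card : ℕ) : ℝ) ≤ δ * ((B : ℝ) - A) * V h (zz h n₀ Q) X :=
  Pool.Agent.X32.Uni.blkS h hk n₀ Q hQ ε hε

end Pool.Agent.Results.MP_7169d5_nt.PrescribedSmallParts
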