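import Pool.Agent.X20.Tr.ThinB
import Pool.Agent.Results.MP_7169d5_nt.ShortIntervalsFewExceptions
import Pool.Agent.Results.MP_7169d5_nt.OddPartAllScales

/-!
# The polynomials `m ^ 2 + a` at `m = ⌊α n ^ c⌋`

Almost primes, the parity of the number of prime factors in residue classes, and a comparison for primes, for the values
`m ^ 2 + a`, where `m` runs over the sparse sequences `⌊α n ^ c⌋`, for every `c > 1`.
From Mathlib: `dimH E`: the Hausdorff dimension; `⌊x⌋₊`: the integer part; `Finset.Icc 1 N` and `Finset.Ioc 0 N`: the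
integers from `1` to `N`; `(k.primeFactorsList).length`: the number of prime factors of `k ≥ 1` with multiplicity; `padicValNat p k`: the
exponent of `p` in `k`; `z.toNat`: the integer `z` if `z ≥ 0`, and else `0`.
-/

set_option autoImplicit false

namespace Pool.Agent.Results.MP_7169d5_nt.SparseSequences

open Finset Filter
open Pool.Agent.X20.Tr
open Pool.Agent.Y854.PS (ms xs)

/-- `m ^ 2 + a` has at most three prime factors, counted with multiplicity, and all of them are at least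
`(m / 2) ^ (29 / 160)`. -/
def AlmostPrime (a : ℤ) (m : ℕ) : Prop :=
  ((m : ℤ) ^ 2 + a).natAbs.primeFactorsList.length ≤ 3 ∧
    ∀ p : ℕ, p.Prime → (p : ℤ) ∣ (m : ℤ) ^ 2 + a → ((m : ℝ) / 2) ^ (29 / 160 : ℝ) ≤ p

/-- The number of the primes `p ≡ r` modulo `q` which divide `m ^ 2 + 1` exactly to an odd power is odd. For `q = 1`
this says that the Liouville function of `m ^ 2 + 1` is `-1`. -/
def OddClass (q r : ℕ) (m : ℕ) : Prop :=
  Odd ({p : ℕ | p.Prime ∧ p ≡ r [MOD q] ∧ Odd (padicValNat p (m ^ 2 + 1))}.ncard)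

open Classical in
/-- the input for almost primes -/
lemma input1 (a : ℤ) (ha : ¬ IsSquare (-a)) : ∃ δ : ℝ, 0 < δ ∧ ∃ X₀ : ℕ, ∀ X : ℕ, X₀ ≤ X →
    δ * X / Real.log X ≤ (((Icc 1 X).filter (fun m => m ∈ {m | AlmostPrime a m})).card : ℝ) := by
  obtain ⟨δ, hδ, h⟩ := Pool.Agent.Results.MP_7169d5_nt.ShortIntervalsFewExceptions.result a ha 3 (29 / 40) (29 / 160)
    (Or.inr (Or.inr ⟨rfl, le_rfl, by norm_num⟩)) (by norm_num) 1 (1 / 4) one_pos le_rfl (by norm_num)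
  obtain ⟨X₁, h1⟩ := eventually_atTop.1 h
  refine ⟨δ / 4, by positivity, 2 * max X₁ 2 + 4, fun Y hY => ?_⟩
  obtain ⟨X, hX⟩ : ∃ X : ℕ, X = Y / 2 := ⟨_, rfl⟩
  have hX1 : X₁ ≤ X := by have := le_max_left X₁ 2; omega
  have hX2 : 2 ≤ X := by have := le_max_right X₁ 2; omega
  have hXY : 2 * X ≤ Y := by omega
  have hYX : Y ≤ 2 * X + 1 := by omega
  have h2 := h1 X hX1
  have hX2R : (2 : ℝ) ≤ X := by exact_mod_cast hX2
  -- a good position
  have h3 : ∃ N ∈ Icc 1 X, δ * (X : ℝ) ^ (1 : ℝ) / Real.log X ≤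
      (ShortIntervalsFewExceptions.almostPrimes a 3 ((X : ℝ) ^ (29 / 160 : ℝ)) N ⌊(X : ℝ) ^ (1 : ℝ)⌋₊ : ℝ) := by
    by_contra hcon
    push Not at hcon
    have h4 : (Icc 1 X).filter (fun N : ℕ =>
        (ShortIntervalsFewExceptions.almostPrimes a 3 ((X : ℝ) ^ (29 / 160 : ℝ)) N ⌊(X : ℝ) ^ (1 : ℝ)⌋₊ : ℝ) <
          δ * (X : ℝ) ^ (1 : ℝ) / Real.log X) = Icc 1 X := by
      apply filter_true_of_mem
      intro N hN
      exact hcon N hN
    rw [h4, Nat.card_Icc, Nat.add_sub_cancel] at h2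
    have h5 : (X : ℝ) ^ (2 * (29 / 40 : ℝ) - 1 + 1 / 4) < (X : ℝ) ^ (1 : ℝ) :=
      Real.rpow_lt_rpow_of_exponent_lt (by linarith) (by norm_num)
    rw [Real.rpow_one] at h5
    linarith
  obtain ⟨N, hN, h4⟩ := h3
  rw [mem_Icc] at hN
  rw [Real.rpow_one, Nat.floor_natCast] at h4
  have h5 : ShortIntervalsFewExceptions.almostPrimes a 3 ((X : ℝ) ^ (29 / 160 : ℝ)) N X ≤
      ((Icc 1 Y).filter (fun m => m ∈ {m | AlmostPrime a m})).card := by
    unfold ShortIntervalsFewExceptions.almostPrimes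
    apply card_le_card
    intro n hn
    rw [mem_filter, mem_Ioc] at hn
    rw [mem_filter, mem_Icc]
    refine ⟨⟨by omega, by omega⟩, ?_⟩
    refine ⟨hn.2.1, fun p hp hd => le_trans ?_ (hn.2.2 p hp hd)⟩
    apply Real.rpow_le_rpow (by positivity) _ (by norm_num)
    have h6 : (n : ℝ) ≤ (N : ℝ) + X := by exact_mod_cast hn.1.2
    have h7 : (N : ℝ) ≤ X := by exact_mod_cast hN.2
    linarith
  have h6 : (Y : ℝ) ≤ 2 * X + 1 := by exact_mod_cast hYX
  have h7 : (2 : ℝ) * X ≤ Y := by exact_mod_cast hXY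
  have hlX : 0 < Real.log X := Real.log_pos (by linarith)
  have hlY : Real.log X ≤ Real.log Y := Real.log_le_log (by linarith) (by linarith)
  calc δ / 4 * Y / Real.log Y ≤ δ * X / Real.log X := by
        apply div_le_div₀ (by positivity) _ hlX hlY
        nlinarith
    _ ≤ _ := h4.trans (by exact_mod_cast h5)

open Classical in
/-- the input for the parity -/
lemma input2 (q r : ℕ) (hqr : ∃ p : ℕ, p.Prime ∧ p % 4 ≠ 3 ∧ p ≡ r [MOD q]) :
    ∀ δ : ℝ, 0 < δ → ∃ X₀ : ℕ, ∀ X : ℕ, X₀ ≤ X →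
      (X : ℝ) ^ (1 - δ) ≤ (((Icc 1 X).filter (fun m => m ∈ {m | OddClass q r m})).card : ℝ) := by
  intro δ hδ
  obtain ⟨p, hp, hp4, hpr⟩ := hqr
  obtain ⟨X₀, h⟩ := Pool.Agent.Results.MP_7169d5_nt.OddPartAllScales.result {p | p ≡ r [MOD q]} ⟨p, hpr, hp, hp4⟩ δ hδ
  refine ⟨X₀, fun X hX => (h X hX).trans ?_⟩
  rw [← Set.ncard_coe_finset]
  have key := Set.ncard_le_ncard (s := {n : ℕ | 1 ≤ n ∧ n ≤ X ∧ ∃ k m : ℕ, n ^ 2 + 1 = k ^ 2 * m ∧
        (k : ℝ) ≤ (X : ℝ) ^ δ ∧ Squarefree m ∧ Odd ({p : ℕ | p.Prime ∧ p ∣ m ∧ p ∈ {p | p ≡ r [MOD q]}}.ncard)})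
      (t := (((Icc 1 X).filter (fun m => m ∈ {m | OddClass q r m}) : Finset ℕ) : Set ℕ)) (by
    rintro n ⟨h1, h2, k, m, h3, _, h5, h6⟩
    rw [Finset.mem_coe, mem_filter, mem_Icc]
    refine ⟨⟨h1, h2⟩, ?_⟩
    show Odd ({p : ℕ | p.Prime ∧ p ≡ r [MOD q] ∧ Odd (padicValNat p (n ^ 2 + 1))}.ncard)
    have e : {p : ℕ | p.Prime ∧ p ≡ r [MOD q] ∧ Odd (padicValNat p (n ^ 2 + 1))} =
        {p : ℕ | p.Prime ∧ p ∣ m ∧ p ∈ {p | p ≡ r [MOD q]}} := by
      ext p
      simp only [Set.mem_ofPred_eq]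
      have hm0 : m ≠ 0 := h5.ne_zero
      have hk0 : k ≠ 0 := by
        rintro rfl
        simp at h3
      constructor
      · rintro ⟨g1, g2, g3⟩
        have := Fact.mk g1
        refine ⟨g1, ?_, g2⟩
        by_contra hcon
        rw [h3, padicValNat.mul (pow_ne_zero 2 hk0) hm0, padicValNat.pow, padicValNat.eq_zero_of_not_dvd hcon,
          add_zero] at g3
        rw [Nat.odd_iff] at g3
        omega
      · rintro ⟨g1, g2, g3⟩
        have := Fact.mk g1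
        refine ⟨g1, g3, ?_⟩
        have hv : padicValNat p m = 1 := by
          have h8 : padicValNat p m ≤ 1 := by
            rw [← Nat.factorization_def m g1]
            exact h5.natFactorization_le_one p
          have h9 : 1 ≤ padicValNat p m := one_le_padicValNat_of_dvd hm0 g2
          omega
        rw [h3, padicValNat.mul (pow_ne_zero 2 hk0) hm0, padicValNat.pow, hv, Nat.odd_iff]
        omega
    rw [e]
    exact h6) (Finset.finite_toSet _)
  exact_mod_cast key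

/-- an enumeration of the integers -/
def az (t : ℕ) : ℤ := if t % 2 = 0 then (t / 2 : ℕ) else -((t / 2 : ℕ) + 1)

lemma az_surj (a : ℤ) : ∃ t : ℕ, az t = a ∧ t ≤ 2 * a.natAbs := by
  rcases le_or_gt 0 a with h | h
  · refine ⟨2 * a.natAbs, ?_, le_rfl⟩
    unfold az
    rw [if_pos (by omega)]
    omega
  · refine ⟨2 * a.natAbs - 1, ?_, by omega⟩
    unfold az
    rw [if_neg (by omega)]
    omega

open Classical in
/-- For every real `c > 1` there are `κ > 0` and a set `E` of real numbers of Hausdorff dimension at most `1 - κ`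
such that for every real `α > 0` outside `E` the integers `m(n) = ⌊α n ^ c⌋` satisfy:

* for every integer `a` such that `-a` is not a perfect square at least `δ N / log N` of the integers `n ≤ N`, with
  `δ = δ(a) > 0`, have the property that `m(n) ^ 2 + a` has at most three prime factors, all of them at least
  `(m(n) / 2) ^ (29 / 160)`;
* for all `q ≥ 1` and `r` such that some prime `p ≡ r` modulo `q` is `2` or `≡ 1` modulo `4`, and every `ε > 0`, for
  at least `N ^ (1 - ε)` of the integers `n ≤ N` the number of the primes `p ≡ r` modulo `q` which divide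
  `m(n) ^ 2 + 1` exactly to an odd power is odd; for `q = 1`: the Liouville function of `m(n) ^ 2 + 1` is `-1`;
* for all large `N` and all integers `a` with `|a| ≤ N ^ κ` the number of the integers `n ≤ N` for which
  `m(n) ^ 2 + a` is prime is, up to `N ^ (1 - κ)`, the number of all `m ≤ α N ^ c` such that `m ^ 2 + a` is prime,
  counted with the weights `(1 / c) α ^ (-1 / c) m ^ (1 / c - 1)` (the density of the sequence at `m`). -/
theorem result (c : ℝ) (hc : 1 < c) : ∃ κ : ℝ, 0 < κ ∧ κ < 1 ∧ ∃ E : Set ℝ, dimH E ≤ ENNReal.ofReal (1 - κ) ∧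
    ∀ α : ℝ, 0 < α → α ∉ E →
      (∀ a : ℤ, ¬ IsSquare (-a) → ∃ δ : ℝ, 0 < δ ∧ ∃ N₀ : ℕ, ∀ N : ℕ, N₀ ≤ N →
        δ * N / Real.log N ≤ (((Icc 1 N).filter (fun n : ℕ => AlmostPrime a ⌊α * (n : ℝ) ^ c⌋₊)).card : ℝ)) ∧
      (∀ q r : ℕ, (∃ p : ℕ, p.Prime ∧ p % 4 ≠ 3 ∧ p ≡ r [MOD q]) → ∀ ε : ℝ, 0 < ε → ∃ N₀ : ℕ, ∀ N : ℕ, N₀ ≤ N →
          (N : ℝ) ^ (1 - ε) ≤ (((Icc 1 N).filter (fun n : ℕ => OddClass q r ⌊α * (n : ℝ) ^ c⌋₊)).card : ℝ)) ∧
      (∃ N₀ : ℕ, ∀ N : ℕ, N₀ ≤ N → ∀ a : ℤ, |(a : ℝ)| ≤ (N : ℝ) ^ κ →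
        |(((Icc 1 N).filter (fun n : ℕ => (((⌊α * (n : ℝ) ^ c⌋₊ : ℤ) ^ 2 + a).toNat).Prime)).card : ℝ) -
          ∑ m ∈ (Ioc 0 ⌊α * (N : ℝ) ^ c⌋₊).filter (fun m : ℕ => (((m : ℤ) ^ 2 + a).toNat).Prime),
            1 / c * α ^ (-(1 / c)) * (m : ℝ) ^ (1 / c - 1)| ≤ (N : ℝ) ^ (1 - κ)) := by
  obtain ⟨κ, hκ0, hκ1, H⟩ := two_fam c hc
  obtain ⟨E, hE, h⟩ := H (fun t => ind {m | (((m : ℤ) ^ 2 + az t).toNat).Prime}) (fun t => ind_tri _)
    (ℤ ⊕ (ℕ × ℕ))
    (Sum.elim (fun a => ind {m | AlmostPrime a m})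
      (fun x => ind {m | OddClass x.1 x.2 m}))
    (by
      rintro (a | x)
      · exact ind_tri _
      · exact ind_tri _)
  refine ⟨κ / 2, by positivity, by linarith, E, hE.trans (ENNReal.ofReal_le_ofReal (by linarith)),
    fun α hα hαE => ?_⟩
  obtain ⟨h1, _, h3⟩ := h α hα hαE
  refine ⟨fun a ha => ?_, fun q r hqr ε hε => ?_, ?_⟩
  · have := thin_log hc hα hκ0 (B := {m | AlmostPrime a m}) (h3 (Sum.inl a)) (input1 a ha)
    exact this
  · have := thin_pow hc hα hκ0 (B := {m | OddClass q r m}) (h3 (Sum.inr (q, r))) (input2 q r hqr) ε hε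
    exact this
  · obtain ⟨N₁, h4⟩ := h1
    obtain ⟨N₂, h5⟩ := (((tend_pow (κ / 2) (by positivity)).eventually_ge_atTop 2).and
      (eventually_ge_atTop 1)).exists_forall_of_atTop
    refine ⟨max N₁ N₂, fun N hN a ha => ?_⟩
    obtain ⟨k1, k2⟩ := h5 N ((le_max_right _ _).trans hN)
    have hN1 : (1 : ℝ) ≤ N := by exact_mod_cast k2
    have hN0 : (0 : ℝ) < N := by linarith
    obtain ⟨t, ht, hta⟩ := az_surj a
    have h6 := (h4 N ((le_max_left _ _).trans hN)).2 t (by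
      have h7 : (t : ℝ) ≤ 2 * |(a : ℝ)| := by
        have h8 : (t : ℝ) ≤ 2 * (a.natAbs : ℝ) := by exact_mod_cast hta
        rwa [Nat.cast_natAbs, Int.cast_abs] at h8
      have h8 : (N : ℝ) ^ κ = (N : ℝ) ^ (κ / 2) * (N : ℝ) ^ (κ / 2) := by
        rw [← Real.rpow_add hN0]
        congr 1
        ring
      rw [h8]
      nlinarith [abs_nonneg (a : ℝ)])
    rw [ht] at h6
    have h7 : (N : ℝ) ^ (1 - κ) ≤ (N : ℝ) ^ (1 - κ / 2) := Real.rpow_le_rpow_of_exponent_le hN1 (by linarith)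
    refine le_trans (le_of_eq ?_) (h6.trans h7)
    congr 1
    congr 1
    · rw [sum_ind {m : ℕ | (((m : ℤ) ^ 2 + a).toNat).Prime}]
      rfl
    · rw [sum_filter]
      apply sum_congr rfl
      intro m _
      unfold ind wt
      by_cases h8 : (((m : ℤ) ^ 2 + a).toNat).Prime
      · rw [if_pos h8, if_pos (show m ∈ {m : ℕ | (((m : ℤ) ^ 2 + a).toNat).Prime} from h8), one_mul]
      · rw [if_neg h8, if_neg (show m ∉ {m : ℕ | (((m : ℤ) ^ 2 + a).toNat).Prime} from h8), zero_mul]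

end Pool.Agent.Results.MP_7169d5_nt.SparseSequences
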